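import Pool.Agent.Lib.MP_dfab40_lc.S2.Sys

/-!
The two extension steps: an unbounded set inside or outside a `Σ₂` predicate, and a set separating
two disjoint `Σ₁` predicates.
-/

namespace Pool.Agent.Lib.MP_dfab40_lc.S2

variable {M : Type} [Ar M] [Big M] {U : Univ M}

theorem stepS [Countable M] (h : Good U) {θ : M → M → M → Prop}
    (hθ : Comp U fun q : M × M × M => θ q.1 q.2.1 q.2.2) :
    ∃ U', Good U' ∧ U.Le U' ∧ ∃ H, U'.mem H ∧ (∀ x, ∃ y, x < y ∧ H y) ∧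
      ((∀ x, H x → ∃ w, ∀ z, θ x w z) ∨ ∀ x, H x → ¬ ∃ w, ∀ z, θ x w z) := by
  obtain ⟨Θ, hΘ⟩ := h.1
  have hΘ1 := hΘ.1
  obtain ⟨V, B, hj, hV, hB, hK⟩ := exists_diag h
  obtain ⟨col, hcol⟩ : ∃ col : M → M → M → Prop, col = fun e x y => bex y fun w =>
    ball y (θ x w) ∧ ball (w + 1) fun v => bex y fun z => ¬ B e v z := ⟨_, rfl⟩
  have K1 : ∀ e x v, (∀ z, B e v z) → (∀ b, ∃ y, b ≤ y ∧ col e x y) →
      ∃ w < v, ∀ z, θ x w z := fun e x v h1 h2 => by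
    refine (bex_all (U := U) (A := θ x) (by fun_prop) v).2 fun b => ?_
    obtain ⟨y, h3, h4⟩ := h2 b
    rw [hcol] at h4
    obtain ⟨w, -, h5, h6⟩ := h4
    refine ⟨w, not_le.1 fun h7 => ?_, fun z hz => h5 z (hz.trans_le h3)⟩
    obtain ⟨z, -, h8⟩ := h6 v (lt_succ.2 h7)
    exact h8 (h1 z)
  have K2 : ∀ e x, (¬ ∃ v, ∀ z, B e v z) → (∃ w, ∀ z, θ x w z) →
      ∃ b, ∀ y, b ≤ y → col e x y := fun e x h1 ⟨w, h2⟩ => by
    obtain ⟨b, hb⟩ := Comp.coll (U := U) (p := fun v z => ¬ B e v z) (by fun_prop) (w + 1)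
      (fun v _ => not_forall.1 fun h3 => h1 ⟨v, h3⟩)
    refine ⟨b + w + 1, fun y hy => ?_⟩
    rw [hcol]
    refine ⟨w, (lt_succ.2 le_add_self).trans_le hy, fun z _ => h2 z, fun v hv => ?_⟩
    obtain ⟨z, h3, h4⟩ := hb v hv
    exact ⟨z, h3.trans_le ((le_self_add.trans le_self_add).trans hy), h4⟩
  obtain ⟨Q, hVQ, hN, Leg, X, St, sd, ep, Ct, S⟩ := exists_sys (col := col) (F := Th Θ) hΘ hj hV hK
    (by rw [hcol]; fun_prop) (by fun_prop) (fun _ _ _ => Th.mono)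
  have hle := hj.le.trans hVQ
  have cLeg := S.cLeg
  have cX := S.cX
  have cSt := S.cSt
  have csd := S.csd
  have cep := S.cep
  have cCt := S.cCt
  by_cases hc : ∃ y e, Leg (fst y) ∧ (¬ ∃ v, ∀ z, B e v z) ∧
      ¬ ∃ u, Leg u ∧ u ≠ 0 ∧ ep u = pair e y ∧ sd u = 1
  · obtain ⟨y0, e, h1, h2, h3⟩ := hc
    have sd0 : ∀ u, Leg u → u ≠ 0 → ep u = pair e y0 → sd u = 0 := fun u h4 h5 h6 =>
      (le_one_iff.1 (lt_succ.1 (S.two u h4 h5))).resolve_right fun h7 => h3 ⟨u, h4, h5, h6, h7⟩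
    obtain ⟨U', h4, h5, H, h6, h7, h8⟩ := chain_fin hΘ hle
      (R := fun z u => (z = 0 ∧ Leg u ∧ ep u = pair e y0) ∨ (z ≠ 0 ∧ Ct z u))
      (I := fun z => Leg z ∧ (z = 0 ∨ ep z = pair e y0)) (St := fun z => St z 0) (X := X)
      (by fun_prop) (by fun_prop) (by fun_prop) cX ⟨S.leg0, Or.inl rfl⟩
      (fun u hu => S.nd u hu.1 0 (lt_succ.2 zero_le)) (fun u hu => S.inf u hu.1)
      (fun z hz => by
        by_cases h0 : z = 0
        · obtain ⟨u, h4, h5, h6⟩ := S.fresh (pair e y0) (by simpa using h1)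
          exact ⟨u, h0 ▸ pos_iff_ne_zero.2 h5, Or.inl ⟨h0, h4, h6⟩⟩
        · obtain ⟨u, h4, h5⟩ := S.cont z hz.1 h0 (sd0 z hz.1 h0 (hz.2.resolve_left h0))
          exact ⟨u, h4, Or.inr ⟨h0, h5⟩⟩)
      (fun z u hz hzu hR => by
        rcases hR with ⟨rfl, h4, h5⟩ | ⟨h0, h4⟩
        · exact ⟨⟨h4, Or.inr h5⟩, ⟨⟨(S.nil 0).trans_le zero_le,
            fun i hi => absurd (S.nil 0 ▸ hi) not_lt_zero'⟩, fun y _ _ _ => S.res0 y⟩,
            fun y _ => S.res0 y, fun _ _ _ _ _ _ he => absurd he not_lt_zero'⟩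
        · obtain ⟨h5, h6, h7, h8⟩ := S.cont' z u hz.1 hzu h4
          have h9 := h6.trans (hz.2.resolve_left h0)
          obtain ⟨h10, h11⟩ := h8 (sd0 u h5 (zero_le.trans_lt hzu).ne' h9)
          exact ⟨⟨h5, Or.inr h9⟩, h10, h7, h11⟩)
    refine ⟨U', h4, h5, H, h6, h7, Or.inr fun x hx hA => ?_⟩
    obtain ⟨u, ⟨h9, h10⟩, h11, h12⟩ := h8 x hx
    have h0 : u ≠ 0 := fun h0 => by
      rw [h0] at h11; exact absurd (S.nil 0 ▸ h11) not_lt_zero'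
    replace h10 := h10.resolve_left h0
    obtain ⟨b, hb⟩ := K2 e x h2 hA
    obtain ⟨y, h13, h14⟩ := S.inf u h9 b
    exact S.zero u h9 h0 (sd0 u h9 h0 h10) y h14 x h11 h12 (by simpa [h10] using hb y h13)
  · obtain ⟨B', hB'⟩ : ∃ B' : M → M → Prop, B' = fun e v => ∀ z, B e v z := ⟨_, rfl⟩
    obtain ⟨θ', hθ'⟩ : ∃ θ' : M → M → Prop, θ' = fun x w => ∀ z, θ x w z := ⟨_, rfl⟩
    have cB : Comp Q fun q : M × M => B' q.1 q.2 := by
      rw [hB']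
      exact (hj.all (p := fun (q : M × M) z => B q.1 q.2 z) (by fun_prop)).mono hVQ
    have cθ : Comp Q fun q : M × M => θ' q.1 q.2 := by
      rw [hθ']
      exact (hj.all (p := fun (q : M × M) z => θ q.1 q.2 z) (by fun_prop)).mono hVQ
    have f0 : fst (0 : M) = 0 := le_antisymm (fst_le 0) zero_le
    obtain ⟨U', h4, h5, H, h6, h7, h8⟩ := chain_fin hΘ hle
      (R := fun y y' => Leg (fst y') ∧ fst y' ≠ 0 ∧ snd (ep (fst y')) = y ∧ sd (fst y') = 1 ∧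
        bex y' (B' (fst (ep (fst y')))))
      (I := fun y => Leg (fst y) ∧ ball (len (St (fst y) 1)) fun x =>
        Imp (get (St (fst y) 1) x = 1) (bex y (θ' x)))
      (St := fun y => St (fst y) 1) (X := fun y => X (fst y))
      (by fun_prop) (by fun_prop) (by fun_prop) (by fun_prop)
      (by rw [f0, S.nil]; exact ⟨S.leg0, fun _ h => absurd h not_lt_zero'⟩)
      (fun u hu => S.nd _ hu.1 1 (lt_add_one 1)) (fun u hu => S.inf _ hu.1)
      (fun y hy => by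
        obtain ⟨e, ⟨v, hv⟩, u, h4, h5, h6, h7⟩ := hN
          (fun e u => Leg u ∧ u ≠ 0 ∧ ep u = pair e y ∧ sd u = 1) (by fun_prop)
          (fun e he => not_not.1 fun h => hc ⟨y, e, hy.1, he, h⟩)
        have h8 := right_le_pair u (y + v + 1)
        refine ⟨pair u (y + v + 1), (lt_succ.2 le_self_add).trans_le h8, ?_⟩
        simp only [fst_pair, h6, snd_pair]
        exact ⟨h4, h5, trivial, h7, v, (lt_succ.2 le_add_self).trans_le h8, hB' ▸ hv⟩)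
      (fun y y' hy hyy ⟨h4, h5, h6, h7, v, h8, h9⟩ => by
        obtain ⟨h10, h11, h12, h13⟩ := S.one _ h4 h5 h7
        rw [h6] at h10 h11 h12 h13
        refine ⟨⟨h4, fun x hx h14 => ?_⟩, h10, h11, h12⟩
        by_cases h15 : x < len (St (fst y) 1)
        · obtain ⟨w, h16, h17⟩ := hy.2 x h15 ((h10.1.get h15).trans h14)
          exact ⟨w, h16.trans hyy, h17⟩
        · rw [hB'] at h9
          obtain ⟨w, h16, h17⟩ := K1 _ x v h9 fun b =>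
            (S.inf _ h4 b).imp fun t ht => ⟨ht.1, (h13 t ht.2 x hx h14).resolve_left h15⟩
          exact ⟨w, h16.trans h8, hθ' ▸ h17⟩)
    refine ⟨U', h4, h5, H, h6, h7, Or.inl fun x hx => ?_⟩
    obtain ⟨u, h9, h10, h11⟩ := h8 x hx
    obtain ⟨w, -, h12⟩ := h9.2 x h10 h11
    rw [hθ'] at h12
    exact ⟨w, h12⟩

theorem stepW (h : Good U) {A B : M → M → Prop} (hA : Comp U fun q : M × M => A q.1 q.2)
    (hB : Comp U fun q : M × M => B q.1 q.2) :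
    ∃ U', Good U' ∧ U.Le U' ∧ ((∀ x, ¬ ((∃ w, A x w) ∧ ∃ w, B x w)) →
      ∃ H, U'.mem H ∧ ∀ x, ((∃ w, A x w) → H x) ∧ ((∃ w, B x w) → ¬ H x)) := by
  by_cases hd : ∀ x, ¬ ((∃ w, A x w) ∧ ∃ w, B x w)
  swap
  · exact ⟨U, h, fun _ h => h, fun h => absurd h hd⟩
  obtain ⟨W, hW, h1, h2⟩ := low_basis h (T := fun s => Nd s ∧ ball (len s) fun i =>
    Imp (bex (len s) (A i)) (get s i = 1) ∧ Imp (bex (len s) (B i)) (get s i ≠ 1)) (by fun_prop)
    ⟨fun _ h => h.1, fun s t ht hs hst => ⟨hs, fun i hi => by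
      simp only [hst.get hi]
      exact ⟨fun ⟨w, h1, h2⟩ => (ht.2 i (hi.trans_le hst.1)).1 ⟨w, h1.trans_le hst.1, h2⟩,
        fun ⟨w, h1, h2⟩ => (ht.2 i (hi.trans_le hst.1)).2 ⟨w, h1.trans_le hst.1, h2⟩⟩⟩,
      fun L => by
        obtain ⟨s, h1, h2, h3⟩ := exists_nd (U := U) (f := fun i => cnd (bex L (A i)) 1 0)
          (by fun_prop) L (fun _ _ => cnd_le le_add_self zero_le)
        refine ⟨s, ⟨h1, fun i hi => ?_⟩, h2⟩
        rw [h2] at hi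
        simp only [h2, h3 i hi]
        refine ⟨fun h4 => cnd_pos h4 _ _, fun ⟨w, _, h4⟩ h5 => ?_⟩
        obtain ⟨w', -, h6⟩ := cnd_eq_one.1 h5
        exact hd i ⟨⟨w', h6⟩, w, h4⟩⟩
  refine ⟨hW.ext, h1, hW.le, fun _ => ⟨fun x => W x = 1,
    comp_iff_mem.1 (hW.comp.eq (Comp.const 1)), fun x => ⟨fun ⟨w, hw⟩ => ?_, fun ⟨w, hw⟩ => ?_⟩⟩⟩
  all_goals
    obtain ⟨s, h3, h4⟩ := hW.seg (x + w + 1)
    have h5 : x < len s := h4 ▸ lt_succ.2 le_self_add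
    have h6 : w < len s := h4 ▸ lt_succ.2 le_add_self
    have h7 := (h2 s h3).2 x h5
    simp only [h3.get h5] at h7
  · exact h7.1 ⟨w, h6, hw⟩
  · exact h7.2 ⟨w, h6, hw⟩

end Pool.Agent.Lib.MP_dfab40_lc.S2
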