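import Pool.Agent.Lib.MP_dfab40_lc.Defs

/-!
The schemes `Σ⁰₂-Subset` and `Σ⁰₁` separation.
-/

namespace Pool.Agent.Lib.MP_dfab40_lc

namespace Fm

/-- `∃ H`, `H` is unbounded, and `∀ x ∈ H, φ(x)` or `∀ x ∈ H, ¬ φ(x)`. -/
noncomputable def subs (φ : Fm) : Fm :=
  ((((lt (.var 1) (.var 0)).and (mem (.var 0) 0)).exN.allN).and
    (((mem (.var 0) 0).imp φ.upS).allN.or ((mem (.var 0) 0).imp φ.upS.neg).allN)).exS

/-- Separation: `∀ x ¬ (φ(x) ∧ ψ(x)) → ∃ X ∀ x ((φ(x) → x ∈ X) ∧ (ψ(x) → x ∉ X))`. -/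
noncomputable def sep (φ ψ : Fm) : Fm := (φ.and ψ).neg.allN.imp
  ((φ.upS.imp (mem (.var 0) 0)).and (ψ.upS.imp (mem (.var 0) 0).neg)).allN.exS

end Fm

/-- The scheme `Σ⁰₂-Subset`: the instances `subs` for the formulas `∃ u ∀ w θ`, `θ` bounded. -/
def Subset2 : Set Fm := {χ | ∃ θ : Fm, θ.Bdd ∧ χ = θ.allN.exN.subs}

/-- The scheme of `Σ⁰₁` separation, equivalent over `RCA₀` to weak König's lemma. -/
def Sep1 : Set Fm := {χ | ∃ θ η : Fm, θ.Bdd ∧ η.Bdd ∧ χ = θ.exN.sep η.exN}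

end Pool.Agent.Lib.MP_dfab40_lc
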