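import Pool.Agent.Lib.MP_dfab40_lc.Trees
import Pool.Agent.Lib.MP_dfab40_lc.S2.Blk

/-!
The union of the stems along an unbounded chain of conditions has its jump under control.
-/

namespace Pool.Agent.Lib.MP_dfab40_lc.S2

variable {M : Type} [Ar M] [Big M] {U Q : Univ M}

theorem chain_end {Θ : M → M → M → Prop} (hΘ : IsTop U Θ) (hle : U.Le Q) {C : M → Prop}
    {St : M → M} {X : M → M → Prop} (cC : Comp Q C) (cSt : Comp Q St)
    (unb : ∀ b, ∃ u, b < u ∧ C u) (nd : ∀ u, C u → Nd (St u))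
    (inf : ∀ u, C u → ∀ b, ∃ y, b ≤ y ∧ X u y)
    (ext : ∀ z u, C z → C u → z ≤ u → Ext (St z) (St u) (X z))
    (dec : ∀ z u, C z → C u → z < u → ∀ ℓ, NoGain (Th Θ) z (St u) (X u) ℓ) :
    ∃ U', Good U' ∧ U.Le U' ∧ ∃ H, U'.mem H ∧ (∀ x, ∃ y, x < y ∧ H y) ∧
      ∀ x, H x → ∃ u, C u ∧ x < len (St u) ∧ get (St u) x = 1 := by
  have hΘ1 := hΘ.1.mono hle
  obtain ⟨D, cD, hD⟩ := Comp.choose (U := Q) (q := fun e : M => e = e) (p := fun e u =>
    C u ∧ bex u fun z => C z ∧ e < z) (by fun_prop) (by fun_prop) (fun e _ => by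
      obtain ⟨z, h2, h3⟩ := unb e
      obtain ⟨u, h4, h5⟩ := unb z
      exact ⟨u, h5, z, h4, h3, h2⟩)
  have h2 : ∀ e ρ, Nd ρ → Ext (St (D e)) ρ (X (D e)) → Th Θ e ρ →
      Th Θ e (St (D e)) := fun e ρ h2 h3 => by
    obtain ⟨h5, z, h7, h8, h9⟩ := hD e rfl
    exact dec z _ h8 h5 h7 (len ρ) ρ h2 le_rfl h3 e h9
  have h3 : ∀ b, ∃ u, C u ∧ ∃ y < len (St u), b ≤ y ∧ get (St u) y = 1 := fun b => by
    obtain ⟨e, h3, h4⟩ := hΘ.th (A := fun b t => bex (len t) fun y => b ≤ y ∧ get t y = 1)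
      (by fun_prop)
    have h5 := (hD (pair e b) rfl).1
    have h6 := h2 (pair e b)
    refine ⟨_, h5, ?_⟩
    obtain ⟨y, h7, h8⟩ := inf _ h5 (b + len (St (D (pair e b))))
    have h9 := nd _ h5
    generalize St (D (pair e b)) = τ at *
    have h12 := fun ℓ => exists_nd (U := U)
      (f := fun x => cnd (x < len τ) (get τ x) (cnd (x = y) 1 0)) (by fun_prop) (y + 1 + ℓ)
      (fun x _ => by
        by_cases h : x < len τ
        · rw [cnd_pos h]; exact h9.le h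
        · rw [cnd_neg h]; exact cnd_le le_add_self zero_le)
    obtain ⟨t, h13, h14, h15⟩ := h12 0
    have h16 : len τ ≤ y := le_add_self.trans h7
    obtain ⟨b0, h17⟩ := h4 b t h13 ⟨y, by simp [h14], le_self_add.trans h7, by
      rw [h15 y (by simp), cnd_neg (not_lt.2 h16), cnd_pos rfl]⟩
    obtain ⟨ρ, h18, h19, h20⟩ := h12 b0
    rw [← h19] at h20
    have h21 : y < len ρ := h19 ▸ (lt_add_one y).trans_le le_self_add
    have h22 : ∀ x < len ρ, ¬ x < len τ → get ρ x = 1 → x = y := fun x hx h h' => by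
      rwa [h20 x hx, cnd_neg h, cnd_eq_one] at h'
    have h23 : Pre τ ρ := ⟨h16.trans h21.le, fun x hx => by
      simp only [h20 x (hx.trans_le (h16.trans h21.le)), cnd_pos hx]⟩
    have h29 : Pre t ρ := ⟨by rw [h14, h19]; gcongr; exact zero_le, fun x hx =>
      (h15 x (h14 ▸ hx)).trans (h20 x (by
        rw [h14, add_zero] at hx; exact (lt_succ.1 hx).trans_lt h21)).symm⟩
    obtain ⟨t', -, -, h24, x, h25, h26, h27⟩ := h3 b τ (h6 ρ h18
      ⟨h23, fun x hx h h' => h22 x hx (not_lt.2 h) h' ▸ h8⟩ (h17 ρ h29 (h19 ▸ le_add_self)))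
    exact ⟨x, h25.trans_le h24.1, h26, (h24.get h25).symm.trans h27⟩
  obtain ⟨E, cE, hE⟩ := Comp.choose (U := Q) (q := fun e : M => e = e) (p := fun i u =>
    C u ∧ i < len (St u)) (by fun_prop) (by fun_prop) (fun i _ => by
      obtain ⟨u, h4, y, h5, h6, -⟩ := h3 i
      exact ⟨u, h4, h6.trans_lt h5⟩)
  obtain ⟨G, hG⟩ : ∃ G : M → M, G = fun i => get (St (E i)) i := ⟨_, rfl⟩
  have cG : Comp Q G := by rw [hG]; fun_prop
  have h4 : ∀ u, C u → Seg G (St u) := fun u hu => ⟨nd u hu, fun i hi => by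
    rw [hG]
    rcases le_total u (E i) with h | h
    · exact (ext _ _ hu (hE i rfl).1 h).1.get hi
    · exact ((ext _ _ (hE i rfl).1 hu h).1.get (hE i rfl).2).symm⟩
  have hGen : Gen U G := gen_of_comp hle cG (fun i => by
    rw [hG]; exact (nd _ (hE i rfl).1).le (hE i rfl).2)
  refine ⟨hGen.ext, ⟨hGen.top ⟨Θ, hΘ⟩, Q, hGen.jmp hΘ (Comp.congr'
    (p := fun e => Th Θ e (St (D e))) (by fun_prop) fun e => ⟨fun h => ⟨_, h4 _ (hD e rfl).1, h⟩,
      fun ⟨t, h5, h6⟩ => ?_⟩)⟩, hGen.le, fun y => G y = 1,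
    comp_iff_mem.1 (hGen.comp.eq (Comp.const 1)), fun x => ?_, fun x hx => ?_⟩
  · obtain ⟨h7, h8⟩ := hE (len t) rfl
    rcases le_total (E (len t)) (D e) with h | h
    · exact h6.mono (h5.pre (h4 _ (hD e rfl).1) (h8.le.trans (ext _ _ h7 (hD e rfl).1 h).1.1))
    · exact h2 e _ (nd _ h7) (ext _ _ (hD e rfl).1 h7 h) (h6.mono (h5.pre (h4 _ h7) h8.le))
  · obtain ⟨u, h5, y, h6, h7, h8⟩ := h3 (x + 1)
    exact ⟨y, succ_le.1 h7, ((h4 u h5).get h6).symm.trans h8⟩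
  · obtain ⟨h5, h6⟩ := hE x rfl
    exact ⟨_, h5, h6, ((h4 _ h5).get h6).trans hx⟩

theorem chain_fin {Θ : M → M → M → Prop} (hΘ : IsTop U Θ) (hle : U.Le Q) {R : M → M → Prop}
    {I : M → Prop} {St : M → M} {X : M → M → Prop} (cR : Comp Q fun q : M × M => R q.1 q.2)
    (cI : Comp Q I) (cSt : Comp Q St) (cX : Comp Q fun q : M × M => X q.1 q.2) (I0 : I 0)
    (nd : ∀ u, I u → Nd (St u)) (inf : ∀ u, I u → ∀ b, ∃ y, b ≤ y ∧ X u y)
    (suc : ∀ z, I z → ∃ u, z < u ∧ R z u)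
    (stp : ∀ z u, I z → z < u → R z u → I u ∧ Ext (St z) (St u) (X z) ∧ (∀ y, X u y → X z y) ∧
      ∀ ℓ, NoGain (Th Θ) z (St u) (X u) ℓ) :
    ∃ U', Good U' ∧ U.Le U' ∧ ∃ H, U'.mem H ∧ (∀ x, ∃ y, x < y ∧ H y) ∧
      ∀ x, H x → ∃ u, I u ∧ x < len (St u) ∧ get (St u) x = 1 := by
  obtain ⟨C, cC, C0, C1, C2⟩ := exists_chain cR
  have hI : ∀ u, C u → I u := Comp.strong (U := Q) (p := fun u => Imp (C u) (I u)) (by fun_prop)
    (fun w ih hw => by
      rcases C1 w hw with rfl | ⟨z, h1, h2, h3, -⟩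
      · exact I0
      · exact (stp z w (ih z h1 h2) h1 h3).1)
  have sub : ∀ z u, C z → C u → z ≤ u → ∀ y, X u y → X z y := fun z u hz hu h y =>
    Comp.strong (U := Q) (p := fun u => Imp (C u) (Imp (z ≤ u) (Imp (X u y) (X z y))))
      (by fun_prop) (fun w ih hw h1 h2 => by
        rcases h1.eq_or_lt with rfl | h1
        · exact h2
        obtain ⟨v, h3, h4, h5, h6⟩ := (C1 w hw).resolve_left (zero_le.trans_lt h1).ne'
        exact ih v h3 h4 (h6 z h1 hz) ((stp v w (hI v h4) h3 h5).2.2.1 y h2)) u hu h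
  obtain ⟨U', h1, h2, H, h3, h4, h5⟩ := chain_end hΘ hle (X := X) cC cSt (fun b => by
      by_contra h
      obtain ⟨z, -, h1, h2⟩ := cC.greatest b C0 zero_le
      obtain ⟨y, h5, h6⟩ := C2 z h1 (suc z (hI z h1))
      exact h ⟨y, not_le.1 fun h7 => absurd (h2 y h7 h6) (not_le.2 h5), h6⟩)
    (fun u hu => nd u (hI u hu)) (fun u hu => inf u (hI u hu)) (fun z u hz hu h => by
      refine Comp.strong (U := Q) (p := fun u => Imp (C u) (Imp (z ≤ u)
        (Ext (St z) (St u) (X z)))) (by fun_prop) (fun w ih hw h1 => ?_) u hu h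
      rcases h1.eq_or_lt with rfl | h1
      · exact Ext.refl _ _
      obtain ⟨v, h3, h4, h5, h6⟩ := (C1 w hw).resolve_left (zero_le.trans_lt h1).ne'
      exact (ih v h3 h4 (h6 z h1 hz)).trans ((stp v w (hI v h4) h3 h5).2.1.mono
        fun y _ => sub z v hz h4 (h6 z h1 hz) y))
    (fun z u hz hu h ℓ => by
      obtain ⟨v, h3, h4, h5, h6⟩ := (C1 u hu).resolve_left (zero_le.trans_lt h).ne'
      exact ((stp v u (hI v h4) h3 h5).2.2.2 ℓ).le (h6 z h hz))
  exact ⟨U', h1, h2, H, h3, h4, fun x hx => (h5 x hx).imp fun u hu => ⟨hI u hu.1, hu.2⟩⟩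

theorem exists_reach {L : M → M → Prop} (hL : Comp Q fun q : M × M => L q.1 q.2) :
    ∃ Leg : M → Prop, Comp Q Leg ∧ ∀ u, Leg u ↔ u = 0 ∨ ∃ z < u, Leg z ∧ L z u := by
  obtain ⟨G, hG, h⟩ := path (U := Q) (S := fun s => ball (len s) fun w =>
    get s w = 1 ↔ w = 0 ∨ bex w fun z => get s z = 1 ∧ L z w) (by fun_prop)
    (fun s _ h0 w hw => absurd (h0 ▸ hw) not_lt_zero') (fun s h1 h2 => by
      obtain ⟨t, h3, h4, h5⟩ := exists_nd (U := Q) (f := fun i => cnd (i < len s) (get s i)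
        (cnd (len s = 0 ∨ bex (len s) fun z => get s z = 1 ∧ L z (len s)) 1 0)) (by fun_prop)
        (len s + 1) (fun i _ => by
          by_cases h : i < len s
          · rw [cnd_pos h]; exact h1.le h
          · rw [cnd_neg h]; exact cnd_le le_add_self zero_le)
      have h6 : ∀ i < len s, get t i = get s i := fun i hi => by
        rw [h5 i (hi.trans (lt_add_one _)), cnd_pos hi]
      have h7 : ∀ w ≤ len s, (bex w fun z => get t z = 1 ∧ L z w) ↔
          bex w fun z => get s z = 1 ∧ L z w := fun w hw =>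
        exists_congr fun z => and_congr_right fun hz => by simp only [h6 z (hz.trans_le hw)]
      refine ⟨t, h3, ?_, ⟨h4 ▸ le_self_add, fun i hi => (h6 i hi).symm⟩, h4⟩
      rw [h4]
      refine ball_succ.2 ⟨fun w hw => ?_, ?_⟩
      · rw [h6 w hw, h7 w hw.le]; exact h2 w hw
      · rw [h5 _ (lt_add_one _), cnd_neg (lt_irrefl _), cnd_eq_one, h7 _ le_rfl])
  refine ⟨fun u => G u = 1, by fun_prop, fun u => ?_⟩
  obtain ⟨s, h1, h2, h3⟩ := h (u + 1)
  have h4 : u < len s := h2 ▸ lt_add_one u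
  show G u = 1 ↔ u = 0 ∨ ∃ z < u, G z = 1 ∧ L z u
  rw [← h1.get h4]
  refine (h3 u h4).trans (or_congr_right (exists_congr fun z => and_congr_right fun hz => ?_))
  simp only [h1.get (hz.trans h4)]

end Pool.Agent.Lib.MP_dfab40_lc.S2
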