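import Pool.Agent.Lib.MP_dfab40_lc.Low
import Pool.Agent.Lib.MP_dfab40_lc.Jump2

/-!
The low basis theorem below a given jump, and the diagonal `Σ₂` predicate.
-/

namespace Pool.Agent.Lib.MP_dfab40_lc.S2

variable {M : Type} [Ar M] [Big M] {U V : Univ M}

open Low in
theorem low_basis' {Θ : M → M → M → Prop} (hΘ : IsTop U Θ) (hV : Jmp U V) {T : M → Prop}
    (hT : Comp U T) (ht : Tree T) :
    ∃ (W : M → M) (hW : Gen U W), Jmp hW.ext V ∧ ∀ s, Seg W s → T s := by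
  obtain ⟨D, hD, hD'⟩ := path (comp_S hΘ hV hT) (fun t _ h0 => by
    rw [S, h0]
    refine ⟨fun ℓ => ?_, fun _ h => absurd h not_lt_zero'⟩
    obtain ⟨s, h1, h2⟩ := ht.inf ℓ
    exact ⟨s, ht.nd s h1, h2.le, h2, h1, fun _ h => absurd h not_lt_zero'⟩) (step hΘ hT ht)
  have k1 : ∀ q ℓ, ∃ s, T s ∧ len s = ℓ ∧ ∀ p < q, Con Θ p (D p) s := fun q ℓ => by
    obtain ⟨t, h1, rfl, h2⟩ := hD' q
    obtain ⟨s, -, -, h3, h4, h5⟩ := h2.1 ℓ
    exact ⟨s, h4, h3, fun p hp => h1.get hp ▸ h5 p hp⟩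
  have k0 : ∀ {i v s : M}, Con Θ (pair 1 i) v s → i < len s → get s i = v := fun h hi => by
    simpa using h.2 (by simp) (by simpa using hi)
  have hW : Gen U (fun i => D (pair 1 i)) := gen_of_comp hV.le (by fun_prop) (fun i => by
    obtain ⟨s, h1, h2, h3⟩ := k1 (pair 1 i + 1) (i + 1)
    have h4 : i < len s := h2 ▸ lt_add_one i
    rw [← k0 (h3 _ (lt_add_one _)) h4]
    exact (ht.nd s h1).le h4)
  have k2 : ∀ s, Seg (fun i => D (pair 1 i)) s → T s ∧ ∀ p, Con Θ p (D p) s := fun s hs => by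
    have : ∀ q, T s ∧ ∀ p < q, Con Θ p (D p) s := fun q => by
      obtain ⟨s', h1, h2, h3⟩ := k1 (q + pair 1 (len s)) (len s)
      obtain rfl : s = s' := hs.1.uniq (ht.nd _ h1) ⟨h2.ge, fun i hi => (hs.get hi).trans
        (k0 (h3 _ ((pair_lt le_rfl hi).trans_le le_add_self)) (h2 ▸ hi)).symm⟩ h2.le
      exact ⟨h1, fun p hp => h3 p (hp.trans_le le_self_add)⟩
    exact ⟨(this 0).1, fun p => (this (p + 1)).2 p (lt_add_one p)⟩
  refine ⟨_, hW, hW.jmp hΘ (Comp.congr' (p := fun e => D (pair 0 e) ≠ 0)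
    (by fun_prop) fun e => ⟨fun h1 => ?_, fun ⟨s, h1, h2⟩ h3 => ?_⟩), fun s hs => (k2 s hs).1⟩
  · obtain ⟨t, h2, h3, h4⟩ := hD' (pair 0 e + 1)
    have h5 : pair 0 e < len t := h3 ▸ lt_add_one _
    by_contra hc
    refine h4.2 _ h5 (by simp) (h2.get h5 ▸ h1) fun ℓ => ?_
    obtain ⟨s, h6, h7⟩ := hW.seg ℓ
    exact ⟨s, h6.1, h7.le, h7, ⟨(k2 s h6).1, fun p hp => by
      simpa only [h2.get (hp.trans h5)] using (k2 s h6).2 p⟩,
      fun h8 => hc ⟨s, h6, by simpa using h8⟩⟩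
  · exact ((k2 s h1).2 (pair 0 e)).1 (by simp) h3 (by simpa using h2)

/-- `K` agrees somewhere with every existential predicate over `V` -/
def Diag (V : Univ M) (K : M → Prop) : Prop :=
  ∀ R : M → M → Prop, Comp V (fun q : M × M => R q.1 q.2) → ∃ e, K e ↔ ∃ b, R e b

theorem exists_diag (h : Good U) : ∃ (V : Univ M) (B : M → M → M → Prop), Jmp U V ∧ Top V ∧
    Comp U (fun q : M × M × M => B q.1 q.2.1 q.2.2) ∧ Diag V (fun e => ∃ v, ∀ z, B e v z) := by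
  obtain ⟨⟨Θ, h1, h2⟩, V, h3⟩ := h
  have h4 : Comp V (fun e : M => ∃ w, Θ (fst e) (snd e) w) := h3.ex (by fun_prop)
  have hG : Gen U (fun e => cnd (∃ w, Θ (fst e) (snd e) w) 1 0) :=
    gen_of_comp h3.le (h4.cnd (by fun_prop) (by fun_prop)) (fun i => cnd_le le_add_self zero_le)
  have hC : Cl2 U := fun A hA a ha =>
    Comp.coll (U := V) (p := fun x y => ∀ z, A x y z)
      (h3.all (p := fun (q : M × M) z => A q.1 q.2 z) (by fun_prop)) a ha
  refine ⟨hG.ext, fun e v w => ¬ Θ e (pair e v) w, fun A hA => ?_, hG.top ⟨Θ, h1, h2⟩,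
    by fun_prop, fun R hR => ?_⟩
  · have hA := comp_iff_mem.2 hA
    obtain ⟨e, he⟩ := h2 (fun x y => A (pair x y)) (by fun_prop)
    refine comp_iff_mem.1 (Comp.congr' ((hG.comp.comp (f := fun x => pair e x) (by fun_prop)).eq
      (Comp.const 1)) (fun x => ?_))
    simp [cnd_eq_one, he]
  · have hR' : Comp hG.ext (fun z : M => R (fst z) (snd z)) := by fun_prop
    obtain ⟨A, hA, eA⟩ := SigG.ex hG (p := fun x y => R (fst (pair x y)) (snd (pair x y)))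
      ((hG.mem.1 (comp_iff_mem.1 hR')).1.comp (f := fun q : M × M => pair q.1 q.2) (by fun_prop))
    have k1 : Sg2 U (fun q : M × M => ∃ w, get q.1 q.2 = 1 ∧ Θ (fst q.2) (snd q.2) w) :=
      Sg2.ex (p := fun (q : M × M) w => get q.1 q.2 = 1 ∧ Θ (fst q.2) (snd q.2) w)
        (Sg2.of (by fun_prop))
    have k2 : Sg2 U (fun q : M × M => ∀ w, get q.1 q.2 = 0 ∧ ¬ Θ (fst q.2) (snd q.2) w) :=
      Sg2.all (p := fun (q : M × M) w => get q.1 q.2 = 0 ∧ ¬ Θ (fst q.2) (snd q.2) w)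
        (by fun_prop)
    have k3 : Sg2 U (fun s => Seg (fun e => cnd (∃ w, Θ (fst e) (snd e) w) 1 0) s) := by
      refine ((Sg2.of Comp.nd).and (Sg2.ball hC (p := fun s i =>
        (∃ w, get s i = 1 ∧ Θ (fst i) (snd i) w) ∨ ∀ w, get s i = 0 ∧ ¬ Θ (fst i) (snd i) w)
        Comp.len (k1.or k2))).congr fun s =>
        and_congr_right fun _ => forall₂_congr fun i _ => ?_
      by_cases h : ∃ w, Θ (fst i) (snd i) w
      · simp only [cnd_pos h]
        obtain ⟨w, hw⟩ := h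
        exact ⟨fun h => h.elim (fun ⟨_, h, _⟩ => h) (fun h => absurd hw (h w).2),
          fun h => Or.inl ⟨w, h, hw⟩⟩
      · simp only [cnd_neg h]
        exact ⟨fun h' => h'.elim (fun ⟨w, _, h'⟩ => absurd ⟨w, h'⟩ h) (fun h => (h 0).1),
          fun h' => Or.inr fun w => ⟨h', fun hw => h ⟨w, hw⟩⟩⟩
    obtain ⟨D, hD, eD⟩ := Sg2.ex (p := fun (x : M) s =>
      Seg (fun e => cnd (∃ w, Θ (fst e) (snd e) w) 1 0) s ∧ A x s)
      ((k3.comp Comp.snd').and (Sg2.of hA))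
    obtain ⟨e, he⟩ := h2 (fun x y => ¬ D (fst x) (snd x) y) (by fun_prop)
    refine ⟨e, ?_⟩
    have h5 := (eA e).trans (eD e)
    simp only [fst_pair, snd_pair] at h5
    rw [h5]
    refine exists_congr fun v => ?_
    have h6 := not_congr (he (pair e v))
    simpa using h6.symm

end Pool.Agent.Lib.MP_dfab40_lc.S2
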