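import Pool.Agent.Lib.MP_dfab40_lc.Trees
import Pool.Agent.Lib.MP_dfab40_lc.S2.Low2

/-!
Simpson-Smith forcing with one more family of dense sets: the complement of the diagonal predicate
does not become existentially definable.
-/

namespace Pool.Agent.Lib.MP_dfab40_lc.S2

variable {M : Type} [Ar M] [Big M] {U V : Univ M} {K : M → Prop}

/-- an existential predicate over `Q` containing the complement of `K` meets `K` -/
def NC (Q : Univ M) (K : M → Prop) : Prop :=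
  ∀ p : M → M → Prop, Comp Q (fun q : M × M => p q.1 q.2) → (∀ e, ¬ K e → ∃ u, p e u) →
    ∃ e, K e ∧ ∃ u, p e u

/-- the requirement attached to a number and a set -/
def Done' (K T : M → Prop) (a : M) (A : M → Prop) : Prop :=
  SS.Done T a A ∧ ∃ e, (K e ∧ ∃ b, ∀ t, T t → len t = b → Up (fun s => A (pair e s)) t) ∨
    (¬ K e ∧ ∀ t, T t → ¬ Up (fun s => A (pair e s)) t)

lemma step' (hK : Diag V K) {T : M → Prop} (hT : Comp V T) (ht : Tree T) (a : M) {A : M → Prop}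
    (hA : Comp V A) :
    ∃ T' : M → Prop, (Comp V T' ∧ Tree T') ∧ (∀ t, T' t → T t) ∧ Done' K T' a A := by
  obtain ⟨T1, ⟨h1, h2⟩, h3, h4⟩ := SS.step hT ht a hA
  obtain ⟨e, he⟩ := hK (fun e b => allNd b fun t => Imp (T1 t ∧ len t = b)
    (Up (fun s => A (pair e s)) t)) (by fun_prop)
  by_cases hk : K e
  · obtain ⟨b, hb⟩ := he.1 hk
    exact ⟨T1, ⟨h1, h2⟩, h3, h4, e, Or.inl ⟨hk, b, fun t h5 h6 => hb t (h2.nd t h5) h6.le ⟨h5, h6⟩⟩⟩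
  · refine ⟨fun t => T1 t ∧ ¬ Up (fun s => A (pair e s)) t, ⟨by fun_prop, fun s h => h2.nd s h.1,
      fun s t h5 h6 h7 => ⟨h2.pre s t h5.1 h6 h7, fun h8 => h5.2 (h8.mono h7)⟩, fun ℓ => ?_⟩,
      fun t h => h3 t h.1, ?_, e, Or.inr ⟨hk, fun t h => h.2⟩⟩
    · by_contra h5
      exact hk (he.2 ⟨ℓ, fun t _ _ h6 => not_not.1 fun h7 => h5 ⟨t, ⟨h6.1, h7⟩, h6.2⟩⟩)
    · obtain ⟨⟨s, h5, h6, h7⟩, h8⟩ := h4
      exact ⟨⟨s, h5, h6, fun t h => h7 t h.1⟩, h8.imp (fun ⟨b, hb⟩ => ⟨b, fun t h => hb t h.1⟩)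
        (fun ⟨x, hx, hb⟩ => ⟨x, hx, fun t h => hb t h.1⟩)⟩

lemma chain' [Countable M] (hV : Top V) (hK : Diag V K) {T : M → Prop} (hT : Comp V T)
    (ht : Tree T) :
    ∃ f : ℕ → M → Prop, (∀ t, f 0 t → T t) ∧ (∀ n, Tree (f n)) ∧
      (∀ n m, n ≤ m → ∀ t, f m t → f n t) ∧ ∀ a A, V.mem A → ∃ n, Done' K (f n) a A := by
  have := hV.countable.to_subtype
  have : Nonempty (M × {A | V.mem A}) := ⟨0, T, comp_iff_mem.1 hT⟩
  obtain ⟨e, he⟩ := exists_surjective_nat (M × {A | V.mem A})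
  choose nx h1 h2 h3 using fun (n : ℕ) (T : {T : M → Prop // Comp V T ∧ Tree T}) =>
    step' hK T.2.1 T.2.2 (e n).1 (comp_iff_mem.2 (e n).2.2)
  let g : ℕ → {T : M → Prop // Comp V T ∧ Tree T} :=
    fun n => Nat.rec ⟨T, hT, ht⟩ (fun n S => ⟨nx n S, h1 n S⟩) n
  refine ⟨fun n => (g n).1, fun _ h => h, fun n => (g n).2.2, fun n m h => ?_, fun a A hA => ?_⟩
  · induction h with
    | refl => exact fun _ h => h
    | step _ ih => exact fun t h => ih t (h2 _ _ t h)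
  · obtain ⟨n, hn⟩ := he (a, ⟨A, hA⟩)
    have := h3 n (g n)
    rw [hn] at this
    exact ⟨n + 1, this⟩

theorem ss_path' [Countable M] (hV : Top V) (hK : Diag V K) {T : M → Prop} (hT : Comp V T)
    (ht : Tree T) : ∃ (P : M → M) (hP : Gen V P), NC hP.ext K ∧ ∀ s, Seg P s → T s := by
  obtain ⟨f, f0, f1, f2, f3⟩ := chain' hV hK hT ht
  have h0 : ∀ ℓ, ∃ n s, Nd s ∧ len s = ℓ ∧ ∀ t, f n t → ℓ ≤ len t → Pre s t := fun ℓ => by
    obtain ⟨n, ⟨⟨s, h1, h2, h3⟩, -⟩, -⟩ := f3 ℓ T (comp_iff_mem.1 hT)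
    exact ⟨n, s, h1, h2, fun t h4 h5 =>
      (h3 t h4).elim id (fun h6 => Pre.of_le (Pre.refl s) h6 (h2 ▸ h5))⟩
  choose n σ h1 h2 h3 using h0
  have h4 : ∀ m ℓ, f m (σ ℓ) := fun m ℓ => by
    obtain ⟨t, h5, h6⟩ := (f1 (max m (n ℓ))).inf ℓ
    exact (f1 m).pre _ t (f2 _ _ (le_max_left _ _) t h5) (h1 ℓ)
      (h3 ℓ t (f2 _ _ (le_max_right _ _) t h5) h6.ge)
  have h5 : ∀ ℓ, Seg (fun i => get (σ (i + 1)) i) (σ ℓ) := fun ℓ =>
    ⟨h1 ℓ, fun i hi => ((h3 (i + 1) _ (h4 _ ℓ) (succ_le.2 hi)).get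
      ((h2 (i + 1)).symm ▸ lt_add_one i)).symm⟩
  have h6 : ∀ m s, Seg (fun i => get (σ (i + 1)) i) s → f m s := fun m s hs =>
    (f1 m).pre s _ (h4 m (len s)) hs.1 (hs.pre (h5 _) (h2 _).ge)
  have hP : Gen V (fun i => get (σ (i + 1)) i) := by
    refine ⟨fun ℓ => ⟨σ ℓ, h5 ℓ, h2 ℓ⟩, fun A hA a ha => ?_⟩
    have hA' : Comp V (fun z : M => A (fst z) (snd z)) := by fun_prop
    obtain ⟨m, ⟨-, ⟨b, hb⟩ | ⟨x, hx, hb⟩⟩, -⟩ := f3 a _ (comp_iff_mem.1 hA')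
    · refine ⟨b, fun x hx => ?_⟩
      obtain ⟨u, h7, h8, h9, h10⟩ := hb (σ b) (h4 m b) (h2 b).ge x hx
      exact ⟨u, (h5 b).of_pre h7 h9, h8.trans (h2 b).le, by simpa using h10⟩
    · obtain ⟨s, h7, h8⟩ := ha x hx
      exact absurd (Up.intro h7.1 (Pre.refl s) (by simpa using h8)) (hb s (h6 m s h7))
  refine ⟨_, hP, fun p hp hall => ?_, fun s hs => f0 s (h6 0 s hs)⟩
  have hp' : Comp hP.ext (fun z : M => p (fst z) (snd z)) := by fun_prop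
  obtain ⟨A, hA, eA⟩ := SigG.ex hP (p := fun x y => p (fst (pair x y)) (snd (pair x y)))
    ((hP.mem.1 (comp_iff_mem.1 hp')).1.comp (f := fun q : M × M => pair q.1 q.2) (by fun_prop))
  simp only [fst_pair, snd_pair] at eA
  have hA' : Comp V (fun z : M => A (fst z) (snd z)) := by fun_prop
  obtain ⟨m, -, e, ⟨hk, b, hb⟩ | ⟨hk, hb⟩⟩ := f3 0 _ (comp_iff_mem.1 hA')
  · obtain ⟨t, h7, h8⟩ := (hb (σ b) (h4 m b) (h2 b)).seg (h5 b)
    exact ⟨e, hk, (eA e).2 ⟨t, h7, by simpa using h8⟩⟩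
  · obtain ⟨s, h7, h8⟩ := (eA e).1 (hall e hk)
    exact absurd (Up.intro h7.1 (Pre.refl s) (by simpa using h8)) (hb s (h6 m s h7))

theorem exists_P' [Countable M] (hV : Top V) (hK : Diag V K) {B : M → M → M → Prop}
    (hB : Comp V fun q : M × M × M => B q.1 q.2.1 q.2.2)
    (hm : ∀ u j ℓ ℓ', B u j ℓ' → ℓ ≤ ℓ' → B u j ℓ) :
    ∃ (P : M → M) (hP : Gen V P), NC hP.ext K ∧
      ∀ u ℓ, (∃ j < kk u, B u j ℓ) → P u < kk u ∧ B u (P u) ℓ := by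
  suffices ht : Tree fun s => Nd s ∧ ball (len s) fun u => ball (len s) fun ℓ =>
      Imp (bex (kk u) fun j => B u j ℓ) (get s u < kk u ∧ B u (get s u) ℓ) by
    obtain ⟨P, hP, hN, h1⟩ := ss_path' hV hK (by fun_prop) ht
    refine ⟨P, hP, hN, fun u ℓ h => ?_⟩
    obtain ⟨s, h2, h3⟩ := hP.seg (u + ℓ + 1)
    have h4 : u < len s := h3 ▸ lt_succ.2 le_self_add
    rw [← h2.get h4]
    exact (h1 s h2).2 u h4 ℓ (h3 ▸ lt_succ.2 le_add_self) h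
  refine ⟨fun s h => h.1, fun s t ht hs hst => ⟨hs, fun u hu ℓ hℓ h => by
      rw [hst.get hu]; exact ht.2 u (hu.trans_le hst.1) ℓ (hℓ.trans_le hst.1) h⟩, fun L => ?_⟩
  obtain ⟨f, hf, h1⟩ := Comp.choose (U := V) (q := fun u : M => u = u) (p := fun u j =>
    j ≤ kk u ∧ ball L fun ℓ => Imp (bex (kk u) fun j => B u j ℓ) (j < kk u ∧ B u j ℓ))
    (by fun_prop) (by fun_prop) (fun u _ => by
      by_cases h : ∃ ℓ ≤ L, bex (kk u) fun j => B u j ℓ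
      · obtain ⟨ℓ, h1, h2⟩ := h
        obtain ⟨m, -, ⟨j, h3, h4⟩, h5⟩ := Comp.greatest (U := V)
          (p := fun ℓ => bex (kk u) fun j => B u j ℓ) (by fun_prop) L h2 h1
        exact ⟨j, h3.le, fun ℓ hℓ h => ⟨h3, hm _ _ _ _ h4 (h5 ℓ hℓ.le h)⟩⟩
      · exact ⟨0, zero_le, fun ℓ hℓ h' => absurd ⟨ℓ, hℓ.le, h'⟩ h⟩)
  obtain ⟨s, h2, h3, h4⟩ := exists_nd hf L
    (fun u _ => ((h1 u rfl).1.trans (kk_le u)).trans le_self_add)
  refine ⟨s, ⟨h2, fun u hu ℓ hℓ h => ?_⟩, h3⟩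
  rw [h4 u (h3 ▸ hu)]
  exact (h1 u rfl).2 ℓ (h3 ▸ hℓ) h

end Pool.Agent.Lib.MP_dfab40_lc.S2
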