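import Pool.Agent.Lib.MP_dfab40_lc.Trees
import Pool.Agent.Lib.MP_dfab40_lc.S2.Blk
import Pool.Agent.Lib.MP_dfab40_lc.S2.Low2

/-!
The low function holding the labellings of all columns; the colouring and the block depend on the
column.
-/

namespace Pool.Agent.Lib.MP_dfab40_lc.S2

variable {M : Type} [Ar M] {U V : Univ M} {α : Type} [Cd M α]

/-- a good labelling exists for the column -/
def ColE (c : M → M → M → M) (F : M → M → Prop) (bk w : M → M) (u ℓ : M) : Prop :=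
  EGL (c u) F (get (sg u)) (Res w u) (nn u) (kk u) (bk u) ℓ

/-- the column is a good labelling -/
def ColL (c : M → M → M → M) (F : M → M → Prop) (bk w : M → M) (u ℓ : M) : Prop :=
  Lab (c u) F (get (sg u)) (Res w u) (nn u) (kk u) (bk u) (fun y => w (pair u y)) ℓ

variable {c : M → M → M → M} {F : M → M → Prop} {bk : M → M} [Big M]

@[fun_prop] lemma comp_colE (hc : Comp U fun q : M × M × M => c q.1 q.2.1 q.2.2)
    (hF : Comp U fun q : M × M => F q.1 q.2) (hbk : Comp U bk) {f g : α → M} {w : α → M → M}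
    (hw : Comp U fun q : α × M => w q.1 q.2) (hf : Comp U f) (hg : Comp U g) :
    Comp U fun x => ColE c F bk (w x) (f x) (g x) := by
  unfold ColE Res; fun_prop

@[fun_prop] lemma comp_colL (hc : Comp U fun q : M × M × M => c q.1 q.2.1 q.2.2)
    (hF : Comp U fun q : M × M => F q.1 q.2) (hbk : Comp U bk) {f g : α → M} {w : α → M → M}
    (hw : Comp U fun q : α × M => w q.1 q.2) (hf : Comp U f) (hg : Comp U g) :
    Comp U fun x => ColL c F bk (w x) (f x) (g x) := by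
  unfold ColL Res; fun_prop

lemma col_congr {w w' : M → M} {u ℓ : M} (hz : fst (fst u) < u)
    (h : ∀ v ≤ u, ∀ y < ℓ, w (pair v y) = w' (pair v y))
    (h1 : ColE c F bk w u ℓ → ColL c F bk w u ℓ) (h2 : ColE c F bk w' u ℓ) : ColL c F bk w' u ℓ := by
  have h3 : ∀ y < ℓ, Res w u y ↔ Res w' u y := fun y hy => by simp only [Res, h _ hz.le y hy]
  exact (h1 (h2.mono le_rfl (fun y hy => (h3 y hy).symm))).mono le_rfl h3 (h u le_rfl)

theorem exists_W' {Θ : M → M → M → Prop} (hΘ : IsTop U Θ) (hV : Jmp U V)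
    (hc : Comp U fun q : M × M × M => c q.1 q.2.1 q.2.2)
    (hF : Comp U fun q : M × M => F q.1 q.2) (hbk : Comp U bk) :
    ∃ (W : M → M) (hW : Gen U W), Jmp hW.ext V ∧
      ∀ u ℓ, fst (fst u) < u → ColE c F bk W u ℓ → ColL c F bk W u ℓ := by
  obtain ⟨CW, hCW⟩ : ∃ CW : M → M → Prop, CW = fun s u => ball (len s + 1) fun ℓ =>
    Imp (pair u ℓ ≤ len s) (Imp (fst (fst u) < u)
      (Imp (ColE c F bk (get s) u ℓ) (ColL c F bk (get s) u ℓ))) := ⟨_, rfl⟩
  have h1 : Comp U fun q : M × M => CW q.1 q.2 := by rw [hCW]; fun_prop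
  have h2 : ∀ s u, CW s u ↔ ∀ ℓ, pair u ℓ ≤ len s → fst (fst u) < u →
      ColE c F bk (get s) u ℓ → ColL c F bk (get s) u ℓ := fun s u => by
    rw [hCW]
    exact ⟨fun h ℓ h' => h ℓ (lt_succ.2 ((right_le_pair _ _).trans h')) h', fun h ℓ _ => h ℓ⟩
  suffices ht : Tree fun s => Nd s ∧ ball (len s + 1) (CW s) by
    obtain ⟨W, hW, h3, h4⟩ := low_basis' hΘ hV (by fun_prop) ht
    refine ⟨W, hW, h3, fun u ℓ hu => ?_⟩
    obtain ⟨s, h5, h6⟩ := hW.seg (pair u ℓ)
    exact col_congr hu (fun v hv y hy => h5.get (h6 ▸ pair_lt hv hy))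
      ((h2 s u).1 ((h4 s h5).2 u (lt_succ.2 (h6 ▸ left_le_pair _ _))) ℓ h6.ge hu)
  refine ⟨fun s h => h.1, fun s t ht hs hst => ⟨hs, fun u hu => (h2 s u).2
      (fun ℓ h3 h4 => col_congr h4 (fun v hv y hy => (hst.get ((pair_lt hv hy).trans_le h3)).symm)
        ((h2 t u).1 (ht.2 u (hu.trans_le (by gcongr; exact hst.1))) ℓ (h3.trans hst.1) h4))⟩,
      fun L => ?_⟩
  suffices ∀ u, exNd L fun s => len s = L ∧ ball u (CW s) by
    obtain ⟨s, h3, -, h4, h5⟩ := this (L + 1)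
    exact ⟨s, ⟨h3, h4 ▸ h5⟩, h4⟩
  refine Comp.ind (U := U) (by fun_prop) ?_ ?_
  · obtain ⟨s, h3, h4, -⟩ := exists_nd (U := U) (f := fun _ => 0) (by fun_prop) L
      (fun _ _ => zero_le)
    exact ⟨s, h3, h4.le, h4, fun _ h => absurd h not_lt_zero'⟩
  rintro u ⟨s, h3, -, h4, h5⟩
  by_cases h6 : ∃ ℓ ≤ L, ColE c F bk (get s) u ℓ
  swap
  · exact ⟨s, h3, h4.le, h4, ball_succ.2 ⟨h5, (h2 s u).2 fun ℓ h7 _ h8 =>
      absurd ⟨ℓ, (right_le_pair _ _).trans (h7.trans h4.le), h8⟩ h6⟩⟩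
  obtain ⟨ℓ0, h6, h7⟩ := h6
  obtain ⟨m, -, ⟨l, -, h8⟩, h9⟩ := Comp.greatest (U := U) (p := fun ℓ => ColE c F bk (get s) u ℓ)
    (by fun_prop) L h7 h6
  obtain ⟨t, h10, h11, h12⟩ := exists_nd (U := U)
    (f := fun p => cnd (fst p = u ∧ snd p < m) (get l (snd p)) (get s p)) (by fun_prop) L
    (fun p hp => by
      by_cases h : fst p = u ∧ snd p < m
      · rw [cnd_pos h]
        exact ((h8.le h.2).trans ((kk_le u).trans (h.1 ▸ fst_le p))).trans le_self_add
      · rw [cnd_neg h]; exact h3.le (h4 ▸ hp))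
  have h13 : ∀ v < u, ∀ y, pair v y < L → get s (pair v y) = get t (pair v y) := fun v hv y h => by
    rw [h12 _ h, cnd_neg (by simp [hv.ne])]
  refine ⟨t, h10, h11.le, h11, ball_succ.2 ⟨fun v hv => (h2 t v).2 fun ℓ h14 h15 => ?_,
    (h2 t u).2 fun ℓ h14 h15 h16 => ?_⟩⟩
  · exact col_congr h15 (fun v' hv' y hy => h13 v' (hv'.trans_lt hv) y
      ((pair_lt hv' hy).trans_le (h14.trans h11.le)))
      ((h2 s v).1 (h5 v hv) ℓ (h14.trans (h11.trans h4.symm).le) h15)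
  · have h17 : ∀ y < ℓ, Res (get s) u y ↔ Res (get t) u y := fun y hy => by
      simp only [Res, h13 _ h15 y ((pair_lt h15.le hy).trans_le (h14.trans h11.le))]
    have h18 := h9 ℓ ((right_le_pair _ _).trans (h14.trans h11.le))
      (h16.mono le_rfl (fun y hy => (h17 y hy).symm))
    refine h8.mono h18 h17 (fun y hy => ?_)
    rw [h12 _ ((pair_lt le_rfl hy).trans_le (h14.trans h11.le)),
      cnd_pos (by simp [hy.trans_le h18]), snd_pair]

end Pool.Agent.Lib.MP_dfab40_lc.S2
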