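import Pool.Agent.Lib.MP_dfab40_lc.Run
import Pool.Agent.Lib.MP_dfab40_lc.S2.W2
import Pool.Agent.Lib.MP_dfab40_lc.S2.SS2
import Pool.Agent.Lib.MP_dfab40_lc.S2.Fin

/-!
The system of legal columns.
-/

namespace Pool.Agent.Lib.MP_dfab40_lc.S2

variable {M : Type} [Ar M] {U V Q : Univ M} {F : M → M → Prop} {col : M → M → M → Prop}

/-- a system of legal columns -/
structure Sys (Q : Univ M) (F : M → M → Prop) (col : M → M → M → Prop) (Leg : M → Prop)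
    (X : M → M → Prop) (St : M → M → M) (sd ep : M → M) (Ct : M → M → Prop) : Prop where
  cLeg : Comp Q Leg
  cX : Comp Q fun q : M × M => X q.1 q.2
  cSt : Comp Q fun q : M × M => St q.1 q.2
  csd : Comp Q sd
  cep : Comp Q ep
  cCt : Comp Q fun q : M × M => Ct q.1 q.2
  leg0 : Leg 0
  res0 : ∀ y, X 0 y
  nil : ∀ i, len (St 0 i) = 0
  nd : ∀ u, Leg u → ∀ i < 1 + 1, Nd (St u i)
  inf : ∀ u, Leg u → ∀ b, ∃ y, b ≤ y ∧ X u y
  two : ∀ u, Leg u → u ≠ 0 → sd u < 1 + 1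
  zero : ∀ u, Leg u → u ≠ 0 → sd u = 0 → ∀ y, X u y → ∀ x < len (St u 0),
    get (St u 0) x = 1 → ¬ col (fst (ep u)) x y
  one : ∀ u, Leg u → u ≠ 0 → sd u = 1 →
    Ext (St (fst (snd (ep u))) 1) (St u 1) (X (fst (snd (ep u)))) ∧
    (∀ y, X u y → X (fst (snd (ep u))) y) ∧ (∀ ℓ, NoGain F (snd (ep u)) (St u 1) (X u) ℓ) ∧
    ∀ y, X u y → ∀ x < len (St u 1), get (St u 1) x = 1 →
      x < len (St (fst (snd (ep u))) 1) ∨ col (fst (ep u)) x y
  fresh : ∀ ε, Leg (fst (snd ε)) → ∃ u, Leg u ∧ u ≠ 0 ∧ ep u = ε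
  cont : ∀ z, Leg z → z ≠ 0 → sd z = 0 → ∃ u, z < u ∧ Ct z u
  cont' : ∀ z u, Leg z → z < u → Ct z u → Leg u ∧ ep u = ep z ∧ (∀ y, X u y → X z y) ∧
    (sd u = 0 → Ext (St z 0) (St u 0) (X z) ∧ ∀ ℓ, NoGain F z (St u 0) (X u) ℓ)

variable [Big M]

theorem exists_sys [Countable M] {Θ : M → M → M → Prop} (hΘ : IsTop U Θ) (hUV : Jmp U V)
    (hV : Top V) {K : M → Prop} (hK : Diag V K)
    (hcol : Comp U fun q : M × M × M => col q.1 q.2.1 q.2.2)
    (hF : Comp U fun q : M × M => F q.1 q.2) (hF2 : ∀ e s t, F e s → Pre s t → F e t) :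
    ∃ Q : Univ M, V.Le Q ∧ NC Q K ∧ ∃ Leg X St sd ep Ct, Sys Q F col Leg X St sd ep Ct := by
  obtain ⟨ep, hep⟩ : ∃ ep : M → M, ep = fun u => get (sg u) (1 + 1) := ⟨_, rfl⟩
  obtain ⟨c, hc'⟩ : ∃ c : M → M → M → M, c = fun u x y =>
    cnd (x < len (get (sg u) 1) ∨ col (fst (ep u)) x y) 1 0 := ⟨_, rfl⟩
  obtain ⟨bk, hbk'⟩ : ∃ bk : M → M, bk = fun u => fst u + ep u := ⟨_, rfl⟩
  have cep : Comp U ep := by rw [hep]; fun_prop
  have hc : Comp U fun q : M × M × M => c q.1 q.2.1 q.2.2 := by rw [hc']; fun_prop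
  have hbk : Comp U bk := by rw [hbk']; fun_prop
  obtain ⟨W, hW, hj, hW1⟩ := exists_W' hΘ hUV hc hF hbk
  have hW0 := hW.comp
  replace hc := hc.mono hW.le
  replace hF := hF.mono hW.le
  replace hbk := hbk.mono hW.le
  replace hcol := hcol.mono hW.le
  have hB : Comp V fun q : M × M × M => ∃ y, q.2.2 ≤ y ∧ W (pair q.1 y) = q.2.1 :=
    hj.ex (by fun_prop)
  have hE : Comp V fun u => ∀ ℓ, ColE c F bk W u ℓ := hj.all (by fun_prop)
  obtain ⟨P, hP, hN, hP1⟩ := exists_P' hV hK (B := fun u j ℓ => ∃ y, ℓ ≤ y ∧ W (pair u y) = j) hB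
    (fun u j ℓ ℓ' ⟨y, h1, h2⟩ h3 => ⟨y, h3.trans h1, h2⟩)
  have hP0 := hP.comp
  have hVQ := hP.le
  have hle := hj.le.trans hP.le
  have hWQ := hW0.mono hle
  replace cep := cep.mono (hW.le.trans hle)
  replace hB := hB.mono hP.le
  replace hE := hE.mono hP.le
  generalize hP.ext = Q at hP0 hle hWQ hB hE cep hVQ hN
  obtain ⟨s0, hs0, hs1⟩ := exists_nil (M := M)
  obtain ⟨X, hX⟩ : ∃ X : M → M → Prop, X = fun z y => z = 0 ∨ W (pair z y) = P z := ⟨_, rfl⟩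
  obtain ⟨St, hSt⟩ : ∃ St : M → M → M, St = fun z i =>
    cnd (z = 0) s0 (cnd (i = side (P z)) (stem (P z)) (get (sg z) i)) := ⟨_, rfl⟩
  have cX : Comp Q fun q : M × M => X q.1 q.2 := by rw [hX]; fun_prop
  have cSt : Comp Q fun q : M × M => St q.1 q.2 := by rw [hSt]; fun_prop
  obtain ⟨Lk, hLk⟩ : ∃ Lk : M → M → Prop, Lk = fun z u => fst u = pair z (P z) ∧
    get (sg u) 1 = St z 1 ∧ ∀ ℓ, ColE c F bk W u ℓ := ⟨_, rfl⟩
  have cLk : Comp Q fun q : M × M => Lk q.1 q.2 := by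
    rw [hLk]; exact Comp.and (by fun_prop) (Comp.and (by fun_prop) (hE.comp Comp.snd'))
  obtain ⟨Leg, cLeg, hLeg⟩ := exists_reach (Q := Q) (L := fun z u => Lk z u ∧
    ((get (sg u) 0 = s0 ∧ fst (snd (ep u)) = z) ∨
      (z ≠ 0 ∧ side (P z) = 0 ∧ get (sg u) 0 = St z 0 ∧ ep u = ep z))) (by fun_prop)
  have lab : ∀ z u, z < u → Lk z u →
      ∀ ℓ, Lab (c u) F (get (sg u)) (X z) (nn u) (kk u) (bk u) (fun y => W (pair u y)) ℓ :=
    fun z u h1 h2 ℓ => by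
      rw [hLk] at h2
      obtain ⟨h3, -, h5⟩ := h2
      exact (hW1 u ℓ (by simpa [h3] using h1) (h5 ℓ)).mono le_rfl
        (fun y _ => by simp [Res, h3, hX]) (fun _ _ => rfl)
  have hX1 : ∀ u y, 0 < u → (X u y ↔ W (pair u y) = P u) := fun u y hu => by
    simp [hX, hu.ne']
  have inf : ∀ u, Leg u → ∀ b, ∃ y, b ≤ y ∧ X u y := fun u hu b => by
    have := Comp.strong (U := Q) (p := fun z => Imp (Leg z ∧ z ≤ b + u)
      (z = 0 ∨ ∃ y, b + u ≤ y ∧ W (pair z y) = P z))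
      (Comp.imp (by fun_prop) (Comp.or (by fun_prop)
        (hB.comp (f := fun z => (z, P z, b + u)) (by fun_prop)))) (fun w ih hw => ?_) u
      ⟨hu, le_add_self⟩
    · rcases this with rfl | ⟨y, h1, h2⟩
      · exact ⟨b, le_rfl, hX ▸ Or.inl rfl⟩
      · exact ⟨y, le_self_add.trans h1, hX ▸ Or.inr h2⟩
    · refine ((hLeg w).1 hw.1).imp_right fun ⟨z, h1, h2, h3, _⟩ => ?_
      obtain ⟨y, h4, h5⟩ : ∃ y, b + u ≤ y ∧ X z y := by
        rcases ih z h1 ⟨h2, h1.le.trans hw.2⟩ with rfl | ⟨y, h4, h5⟩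
        · exact ⟨_, le_rfl, hX ▸ Or.inl rfl⟩
        · exact ⟨y, h4, hX ▸ Or.inr h5⟩
      exact (hP1 w (b + u) ⟨_, ((lab z w h1 h3 (y + 1) y (lt_add_one y)).1
        ⟨h5, (nn_le w).trans (hw.2.trans h4)⟩).1, y, h4, rfl⟩).2
  have st1 : ∀ u, u ≠ 0 → St u (side (P u)) = stem (P u) := fun u hu => by
    simp only [hSt, cnd_neg hu, cnd_pos trivial]
  have st2 : ∀ u i, u ≠ 0 → i ≠ side (P u) → St u i = get (sg u) i := fun u i hu h => by
    simp only [hSt, cnd_neg hu, cnd_neg h]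
  have st0 : ∀ i, St 0 i = s0 := fun i => by simp only [hSt, cnd_pos trivial]
  have key : ∀ z u, Leg z → Leg u → z < u → Lk z u →
      (∀ y, X u y → X z y ∧ Cmp (c u) (side (P u)) (stem (P u)) y) ∧ side (P u) < 1 + 1 ∧
      Nd (stem (P u)) ∧ Ext (get (sg u) (side (P u))) (stem (P u)) (X z) ∧
      ∀ ℓ, NoGain F (bk u) (stem (P u)) (X u) ℓ := fun z u h2 hu h1 h4 => by
    have h6 := lab z u h1 h4
    have h7 : 0 < u := zero_le.trans_lt h1
    obtain ⟨y0, h9, h10⟩ := inf z h2 (nn u)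
    have h11 := (hP1 u 0 ⟨_, ((h6 (y0 + 1) y0 (lt_add_one y0)).1 ⟨h10, h9⟩).1, y0, zero_le,
      rfl⟩).1
    have h12 : ∀ y, X u y → X z y ∧ nn u ≤ y := fun y hy => by
      by_contra h
      exact h11.ne (((hX1 u y h7).1 hy).symm.trans ((h6 (y + 1) y (lt_add_one y)).2 h))
    have h13 := fun y (hy : X u y) ℓ (hℓ : y < ℓ) => (h6 ℓ y hℓ).1 (h12 y hy)
    obtain ⟨y, -, hy⟩ := inf u hu 0
    have h14 := fun ℓ => h13 y hy (ℓ + y + 1) (lt_succ.2 le_add_self)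
    simp only [(hX1 u y h7).1 hy] at h14
    obtain ⟨h15, h16, -, h17⟩ := (h14 0).2.1
    refine ⟨fun y hy => ⟨(h12 y hy).1, ?_⟩, h15, h16, h17, fun ℓ => (h14 ℓ).2.2.2.mono
      (le_self_add.trans le_self_add) fun y _ hy => (hX1 u y h7).1 hy⟩
    have := (h13 y hy _ (lt_add_one y)).2.2.1
    simpa only [(hX1 u y h7).1 hy] using this
  have lk1 : ∀ z u, Lk z u → fst u = pair z (P z) := fun z u h => by rw [hLk] at h; exact h.1
  have lk2 : ∀ z u, Lk z u → get (sg u) 1 = St z 1 := fun z u h => by rw [hLk] at h; exact h.2.1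
  have nd : ∀ u, Leg u → ∀ i < 1 + 1, Nd (St u i) := fun u hu i hi => by
    refine Comp.strong (U := Q) (p := fun z => Imp (Leg z) (Nd (St z i))) (by fun_prop)
      (fun w ih hw => ?_) u hu
    rcases (hLeg w).1 hw with rfl | ⟨z, h1, h2, h3, h4⟩
    · rw [st0]; exact hs0
    have h5 : w ≠ 0 := (zero_le.trans_lt h1).ne'
    by_cases h : i = side (P w)
    · rw [h, st1 w h5]; exact (key z w h2 hw h1 h3).2.2.1
    rw [st2 w i h5 h]
    rcases le_one_iff.1 (lt_succ.1 hi) with rfl | rfl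
    · rcases h4 with h4 | h4
      · rw [h4.1]; exact hs0
      · rw [h4.2.2.1]; exact ih z h1 h2
    · rw [lk2 z w h3]; exact ih z h1 h2
  have inv : ∀ y u, Leg u → u ≠ 0 → get (sg u) 1 = St (fst (snd (ep u))) 1 ∧
      (X (fst (fst u)) y → X (fst (snd (ep u))) y) := fun y => by
    refine Comp.strong (U := Q) (p := fun u => Imp (Leg u) (Imp (u ≠ 0)
      (get (sg u) 1 = St (fst (snd (ep u))) 1 ∧
        Imp (X (fst (fst u)) y) (X (fst (snd (ep u))) y)))) (by fun_prop) (fun w ih hw h0 => ?_)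
    obtain ⟨z, h1, h2, h3, h4⟩ := ((hLeg w).1 hw).resolve_left h0
    rw [lk1 z w h3, fst_pair, lk2 z w h3]
    rcases h4 with h4 | ⟨h4, h5, -, h6⟩
    · rw [h4.2]; exact ⟨rfl, fun h => h⟩
    · obtain ⟨h7, h8⟩ := ih z h1 h2 h4
      obtain ⟨v, h9, h10, h11, -⟩ := ((hLeg z).1 h2).resolve_left h4
      rw [lk1 v z h11, fst_pair] at h8
      rw [h6, st2 z 1 h4 (h5 ▸ one_ne_zero)]
      exact ⟨h7, fun h => h8 ((key v z h10 h2 h9 h11).1 y h).1⟩
  have link : ∀ z, Leg z → ∀ σ0 ε, Nd σ0 → (∀ y, X z y →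
      Cmp (fun x y => cnd (x < len (St z 1) ∨ col (fst ε) x y) 1 0) 0 σ0 y) →
      ∃ u, z < u ∧ Lk z u ∧ get (sg u) 0 = σ0 ∧ ep u = ε := fun z h1 σ0 ε h2 h3 => by
    obtain ⟨g, -, hg⟩ := exists_seq' (U := Q)
      (f := fun i => cnd (i = 0) σ0 (cnd (i = 1) (St z 1) ε)) (by fun_prop) (1 + 1 + 1)
    have g0 : get g 0 = σ0 := (hg 0 (lt_succ.2 zero_le)).trans (cnd_pos rfl _ _)
    have g1 : get g 1 = St z 1 := (hg 1 (lt_succ.2 le_self_add)).trans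
      ((cnd_neg one_ne_zero _ _).trans (cnd_pos rfl _ _))
    have g2 : get g (1 + 1) = ε := (hg (1 + 1) (lt_add_one _)).trans
      ((cnd_neg (lt_succ.2 zero_le).ne' _ _).trans (cnd_neg (lt_add_one 1).ne' _ _))
    obtain ⟨n, k, h4, h5⟩ := blocking hj
      (c := fun x y => cnd (x < len (St z 1) ∨ col (fst ε) x y) 1 0) (by fun_prop) hF
      (σ := get g) (X := X z) (by fun_prop) (by rw [hX]; fun_prop)
      (fun x y => lt_succ.2 (cnd_le le_rfl zero_le)) hF2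
      (fun i hi => by
        rcases le_one_iff.1 (lt_succ.1 hi) with rfl | rfl
        · rw [g0]; exact h2
        · rw [g1]; exact nd z h1 1 hi)
      (fun i hi y hy => by
        rcases le_one_iff.1 (lt_succ.1 hi) with rfl | rfl
        · rw [g0]; exact h3 y hy
        · rw [g1]; exact fun x hx _ => cnd_pos (Or.inl hx) _ _) (pair z (P z) + ε) 1
    refine ⟨pair (pair z (P z)) (pair g (pair n k)),
      (left_le_pair _ _).trans_lt (left_lt_pair _ (zero_lt_one.trans_le (h4.trans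
        ((left_le_pair _ _).trans (right_le_pair _ _))))), ?_, by simpa [sg] using g0,
      by simpa [hep, sg] using g2⟩
    rw [hLk]
    refine ⟨fst_pair _ _, by simpa [sg] using g1, fun ℓ => ?_⟩
    simp only [ColE, hc', hbk', hep, sg, nn, kk, fst_pair, snd_pair, g1, g2]
    exact (h5 ℓ).mono le_rfl (fun y _ => by simp [Res, hX])
  refine ⟨Q, hVQ, hN, Leg, X, St, fun u => side (P u), ep, fun z u => Lk z u ∧
      z ≠ 0 ∧ side (P z) = 0 ∧ get (sg u) 0 = St z 0 ∧ ep u = ep z, cLeg, cX, cSt, by fun_prop,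
    cep, by fun_prop, (hLeg 0).2 (Or.inl rfl), fun y => hX ▸ Or.inl rfl,
    fun i => by rw [st0, hs1], nd, inf, fun u hu h0 => ?_, fun u hu h0 hs y hy x hx h1 h2 => ?_,
    fun u hu h0 hs => ?_, fun ε h => ?_, fun z hz h0 hs => ?_, fun z u hz h1 h2 => ?_⟩
  · obtain ⟨z, h1, h2, h3, -⟩ := ((hLeg u).1 hu).resolve_left h0
    exact (key z u h2 hu h1 h3).2.1
  · obtain ⟨z, h3, h4, h5, -⟩ := ((hLeg u).1 hu).resolve_left h0
    have h6 := ((key z u h4 hu h3 h5).1 y hy).2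
    replace hs : side (P u) = 0 := hs
    rw [← st1 u h0, hs, hc'] at h6
    exact one_ne_zero ((cnd_pos (Or.inr h2) _ _).symm.trans (h6 x hx h1))
  · obtain ⟨z, h3, h4, h5, -⟩ := ((hLeg u).1 hu).resolve_left h0
    obtain ⟨h6, -, -, h7, h8⟩ := key z u h4 hu h3 h5
    replace hs : side (P u) = 1 := hs
    have h9 := fun y => inv y u hu h0
    rw [lk1 z u h5, fst_pair] at h9
    rw [← st1 u h0, hs] at h6 h7 h8
    rw [(h9 0).1] at h7
    refine ⟨h7.mono fun y _ => (h9 y).2, fun y hy => (h9 y).2 (h6 y hy).1,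
      fun ℓ => (h8 ℓ).le (hbk' ▸ (snd_le _).trans le_add_self), fun y hy x hx h10 => ?_⟩
    have h11 := (h6 y hy).2 x hx h10
    rw [hc'] at h11
    exact (h9 0).1 ▸ cnd_eq_one.1 h11
  · obtain ⟨u, h1, h2, h3, h4⟩ := link _ h s0 ε hs0
      (fun y _ x hx => absurd (hs1 ▸ hx) not_lt_zero')
    exact ⟨u, (hLeg u).2 (Or.inr ⟨_, h1, h, h2, Or.inl ⟨h3, by rw [h4]⟩⟩),
      (zero_le.trans_lt h1).ne', h4⟩
  · replace hs : side (P z) = 0 := hs
    obtain ⟨v, h3, h4, h5, -⟩ := ((hLeg z).1 hz).resolve_left h0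
    obtain ⟨u, h6, h7, h8, h9⟩ := link z hz (St z 0) (ep z) (nd z hz 0 (lt_succ.2 zero_le))
      (fun y hy => by
        have h6 := ((key v z h4 hz h3 h5).1 y hy).2
        rw [← st1 z h0, hs, hc'] at h6
        rw [st2 z 1 h0 (hs ▸ one_ne_zero)]
        exact h6)
    exact ⟨u, h6, h7, h0, hs, h8, h9⟩
  · have hu : Leg u := (hLeg u).2 (Or.inr ⟨z, h1, hz, h2.1, Or.inr h2.2⟩)
    obtain ⟨h6, -, -, h7, h8⟩ := key z u hz hu h1 h2.1
    refine ⟨hu, h2.2.2.2.2, fun y hy => (h6 y hy).1, fun hs => ?_⟩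
    replace hs : side (P u) = 0 := hs
    rw [← st1 u (zero_le.trans_lt h1).ne', hs] at h7 h8
    rw [h2.2.2.2.1] at h7
    refine ⟨h7, fun ℓ => (h8 ℓ).le ?_⟩
    rw [hbk']
    exact ((left_le_pair _ _).trans (lk1 z u h2.1).ge).trans le_self_add

end Pool.Agent.Lib.MP_dfab40_lc.S2
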