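import Pool.Agent.Lib.MP_dfab40_lc.Union
import Pool.Agent.Lib.MP_dfab40_lc.S2.Cases
import Pool.Agent.Lib.MP_dfab40_lc.S2.Defs2

/-!
The union of a chain of extensions solving all three kinds of instances.
-/

namespace Pool.Agent.Lib.MP_dfab40_lc.S2

open Model

variable {M : Type} [Ar M]

/-- the three tasks attached to the predicate `F` are solved in `U` -/
def Solved (F : M → Prop) (U : Univ M) : Prop :=
  ((∀ x y : M, x < y → ∃ i < 1 + 1, F (pair (pair x y) i)) → ∃ H, U.mem H ∧ Sol F H) ∧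
  (∃ H, U.mem H ∧ (∀ x, ∃ y, x < y ∧ H y) ∧ ((∀ x, H x → ∃ w, ∀ z, F (pair x (pair w z))) ∨
    ∀ x, H x → ¬ ∃ w, ∀ z, F (pair x (pair w z)))) ∧
  ((∀ x, ¬ ((∃ w, F (pair 0 (pair x w))) ∧ ∃ w, F (pair 1 (pair x w)))) →
    ∃ H, U.mem H ∧ ∀ x, ((∃ w, F (pair 0 (pair x w))) → H x) ∧
      ((∃ w, F (pair 1 (pair x w))) → ¬ H x))

lemma step3 [Big M] [Countable M] {U : Univ M} (h : Good U) (F : M → Prop) :
    ∃ U', Good U' ∧ U.Le U' ∧ (U.mem F → Solved F U') := by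
  by_cases hF : U.mem F
  swap
  · exact ⟨U, h, fun _ h => h, fun h => absurd h hF⟩
  obtain ⟨U1, g1, l1, s1⟩ := Pool.Agent.Lib.MP_dfab40_lc.step' h F
  have h1 := comp_iff_mem.2 (l1 F hF)
  obtain ⟨U2, g2, l2, H2, m2, s2⟩ := stepS g1 (θ := fun x w z => F (pair x (pair w z)))
    (by fun_prop)
  have h2 := h1.mono l2
  obtain ⟨U3, g3, l3, s3⟩ := stepW g2 (A := fun x w => F (pair 0 (pair x w)))
    (B := fun x w => F (pair 1 (pair x w))) (by fun_prop) (by fun_prop)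
  exact ⟨U3, g3, (l1.trans l2).trans l3, fun _ => ⟨fun hc => (s1 hF hc).imp fun H hH =>
    ⟨l3 _ (l2 _ hH.1), hH.2⟩, ⟨H2, l3 _ m2, s2⟩, s3⟩⟩

lemma exists_tower3 [Big M] [Countable M] {U0 : Univ M} (h : Good U0) :
    ∃ U : ℕ → Univ M, U 0 = U0 ∧ (∀ n, Good (U n)) ∧ (∀ n, (U n).Le (U (n + 1))) ∧
      ∀ n F, (U n).mem F → ∃ m, Solved F (U m) := by
  have h1 : ∀ U : {U : Univ M // Good U}, ∃ f : ℕ → M → Prop, {A | U.1.mem A} = Set.range f :=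
    fun U => U.2.1.countable.exists_eq_range ⟨_, U.1.lt⟩
  choose en hen using h1
  obtain ⟨s, h2, h3, h4⟩ := bookkeep (G := {U : Univ M // Good U}) (fun a b => a.1.Le b.1)
    (fun _ _ h => h) (fun _ _ _ => Univ.Le.trans) (fun g k g' => g.1.mem (en g k) →
      Solved (en g k) g'.1) (fun g g' k => by
      obtain ⟨U', h1, h2, h3⟩ := step3 g.2 (en g' k)
      exact ⟨⟨U', h1⟩, h2, fun h4 h5 => h3 (h4 _ h5)⟩) ⟨U0, h⟩
  refine ⟨fun n => (s n).1, congrArg Subtype.val h2, fun n => (s n).2, h3, fun n F hF => ?_⟩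
  obtain ⟨k, rfl⟩ : F ∈ Set.range (en (s n)) := hen (s n) ▸ hF
  obtain ⟨m, hm⟩ := h4 n k
  exact ⟨m, hm hF⟩

theorem model_subs (U : ℕ → Univ M) (hmono : ∀ n, (U n).Le (U (n + 1)))
    (hs : ∀ n F, (U n).mem F → ∃ m, Solved F (U m)) :
    ∀ χ ∈ Subset2, (Str.of M {X | ∃ n, (U n).mem (· ∈ X)}).Valid χ := by
  rintro χ ⟨θ, hθ, rfl⟩ (v : ℕ → M) (V : ℕ → Set M) hV
  obtain ⟨n, h⟩ := key hmono {X | ∃ n, (U n).mem (· ∈ X)} hV hθ
  have h1 := h n le_rfl M (fun p => cons (snd (snd p)) (cons (fst (snd p)) (cons (fst p) v)))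
    (fun i => by
      rcases i with _ | _ | _ | i
      · exact Comp.snd.comp Comp.snd
      · exact Comp.fst.comp Comp.snd
      · exact Comp.fst
      · exact Comp.const _)
  obtain ⟨m, -, ⟨H, h2, h3, h4⟩, -⟩ := hs n _ (comp_iff_mem.1 h1)
  simp only [fst_pair, snd_pair] at h4
  change sat _ _ v V
  refine (sat_exS _ _ _ _).2 ⟨{x | H x}, ⟨m, h2⟩, ?_⟩
  simp only [sat_and, sat_or, sat_imp, sat_all, sat_ex, sat_neg, sat_upS, sat_lt, sat_mem, tv,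
    cons_zero, cons_one]
  exact ⟨h3, h4⟩

theorem model_sep (U : ℕ → Univ M) (hmono : ∀ n, (U n).Le (U (n + 1)))
    (hs : ∀ n F, (U n).mem F → ∃ m, Solved F (U m)) :
    ∀ χ ∈ Sep1, (Str.of M {X | ∃ n, (U n).mem (· ∈ X)}).Valid χ := by
  rintro χ ⟨θ, η, hθ, hη, rfl⟩ (v : ℕ → M) (V : ℕ → Set M) hV
  obtain ⟨n1, h1⟩ := key2 hmono {X | ∃ n, (U n).mem (· ∈ X)} hV hθ v
  obtain ⟨n2, h2⟩ := key2 hmono {X | ∃ n, (U n).mem (· ∈ X)} hV hη v
  have h3 := (h1 _ (le_max_left n1 n2)).comp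
    (f := fun p : M => (fst (snd p), snd (snd p))) (by fun_prop)
  have h4 := (h2 _ (le_max_right n1 n2)).comp
    (f := fun p : M => (fst (snd p), snd (snd p))) (by fun_prop)
  have h5 := ((Comp.fst.eq (Comp.const 0)).and h3).or ((Comp.fst.eq (Comp.const 1)).and h4)
  obtain ⟨m, -, -, h6⟩ := hs _ _ (comp_iff_mem.1 h5)
  simp only [fst_pair, snd_pair, zero_ne_one, one_ne_zero, true_and, false_and, or_false,
    false_or] at h6
  change sat _ _ v V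
  refine (sat_imp _ _ _ _ _).2 fun hd => ?_
  simp only [sat_and, sat_all, sat_ex, sat_neg] at hd
  obtain ⟨H, h7, h8⟩ := h6 hd
  refine (sat_exS _ _ _ _).2 ⟨{x | H x}, ⟨m, h7⟩, ?_⟩
  simp only [sat_and, sat_imp, sat_all, sat_ex, sat_neg, sat_upS, sat_mem, tv, cons_zero]
  exact h8

theorem core3 [Countable M] (S : Set (Set M)) (hA : ∀ χ ∈ RCA0 ∪ BSigma2, (Str.of M S).Valid χ)
    {θ : Fm} (hθ : θ.Arith) (h : Prv (RCA0 ∪ {RT22} ∪ Subset2 ∪ Sep1) [] θ.allS) (v : ℕ → M)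
    (V : ℕ → Set M) (hV : ∀ j, V j ∈ S) : (Str.of M S).Sat θ v V := by
  obtain ⟨U, hU, hI, hB⟩ := exists_univ S hA ⟨_, hV 0⟩
  obtain ⟨J, hJ⟩ := exists_jmp' U hI hB
  have : Big M := ⟨U, J, hJ⟩
  obtain ⟨n, hn⟩ := sat_fin θ
  obtain ⟨U0, h1, -, h2⟩ : ∃ U0, Good U0 ∧ U0.Le U ∧ ∀ j < n, U0.mem (· ∈ V j) := by
    clear hn
    induction n with
    | zero => exact (exists_good hJ).imp fun _ h => ⟨h.1, h.2, fun _ h => absurd h (by omega)⟩
    | succ n ih =>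
      obtain ⟨U0, h1, h2, h3⟩ := ih
      obtain ⟨U1, h4, h5, h6, h7⟩ := h1.add h2 ⟨J, hJ⟩ (hU _ (hV n))
      exact ⟨U1, h4, h6, fun j hj => (Nat.lt_succ_iff_lt_or_eq.1 hj).elim
        (fun hj => h5 _ (h3 j hj)) (fun e => e ▸ h7)⟩
  obtain ⟨T, rfl, h3, h4, h5⟩ := exists_tower3 h1
  have h6 : ∀ χ ∈ RCA0 ∪ {RT22} ∪ Subset2 ∪ Sep1,
      (Str.of M {X | ∃ n, (T n).mem (· ∈ X)}).Valid χ := by
    rintro χ (((hχ | rfl) | hχ) | hχ)
    · exact model_rca T h4 (fun n => (h3 n).2) χ hχ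
    · refine model_rt _ fun F ⟨n, hF⟩ hc => ?_
      obtain ⟨m, h6, -⟩ := h5 n _ hF
      obtain ⟨H, h6, h7⟩ := h6 hc
      exact ⟨{x | H x}, ⟨m, h6⟩, h7⟩
    · exact model_subs T h4 h5 χ hχ
    · exact model_sep T h4 h5 χ hχ
  obtain ⟨V', h7, h8⟩ : ∃ V' : ℕ → Set M, (∀ j < n, V' j = V j) ∧
      ∀ j, V' j ∈ {X | ∃ n, (T n).mem (· ∈ X)} :=
    ⟨fun j => if j < n then V j else Set.univ, fun j hj => if_pos hj, fun j => ⟨0, by
      by_cases hj : j < n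
      · simpa only [if_pos hj] using h2 j hj
      · simp only [if_neg hj]; exact comp_iff_mem.1 (Comp.const True)⟩⟩
  have h9 := Str.sound h6 h v (fun j => V' (j + 1)) (fun j => h8 _) (V' 0) (h8 0)
  have h10 : cons (V' 0) (fun j => V' (j + 1)) = V' := funext fun j => by cases j <;> rfl
  exact (hn (Str.of M S) v V' V h7).1 ((arith_abs hθ _ S v V').1 (h10 ▸ h9))

theorem conservative3 {θ : Fm} (hθ : θ.Arith)
    (h : Prv (RCA0 ∪ {RT22} ∪ Subset2 ∪ Sep1) [] θ.allS) : Prv (RCA0 ∪ BSigma2) [] θ.allS := by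
  by_contra hn
  obtain ⟨A, hc, hA, h1⟩ := complete hn
  refine h1 fun v V hV => ?_
  obtain ⟨i, e⟩ := exists_ar A (fun χ h => hA χ (Or.inl h)) ⟨_, hV 0⟩
  refine (congrArg (fun B : Str => B.Valid θ.allS) e).mpr (fun v V hV X hX => ?_) v V hV
  exact core3 A.S (fun χ h => (congrArg (fun B : Str => B.Valid χ) e).mp (hA χ h)) hθ h v _
    (Str.cons_mem hV hX)

lemma prv_mono {T T' : Set Fm} (hT : T ⊆ T') {Γ : List Fm} {φ : Fm} (h : Prv T Γ φ) :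
    Prv T' Γ φ := by
  induction h with
  | hyp h => exact .hyp h
  | thy h => exact .thy (hT h)
  | impI _ ih => exact .impI ih
  | impE _ _ h1 h2 => exact .impE h1 h2
  | raa _ ih => exact .raa ih
  | allNI _ ih => exact .allNI ih
  | allNE t _ ih => exact .allNE t ih
  | allSI _ ih => exact .allSI ih
  | allSE j _ ih => exact .allSE j ih
  | refl t => exact .refl t
  | repl φ _ _ h1 h2 => exact .repl φ h1 h2

end Pool.Agent.Lib.MP_dfab40_lc.S2
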